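import Pool.Agent.H482R3.EA.Stm

set_option autoImplicit false

/-! Project EA, task A0 (helper940): `act h l 1 = h`. -/

namespace Pool.Agent.H940R.EA.A0

open Pool.Agent.H482R3.EA Pool.Agent.H482R3.EA.NF

variable {S : Sys}

theorem att_one (h : NF S) (l : S.Ln) : att h l 1 = h := by
  unfold att
  rw [if_pos rfl]

theorem att_eq_pt {h : NF S} {l : S.Ln} {y : S.L l} {p : S.P} {n : ℤ} (hy : y ≠ 1)
    (hI : S.I p l) (he : y = S.x l p ^ n)
    (hu : ∀ (s : S.P) (c : ℤ), S.I s l → y = S.x l s ^ c → s = p ∧ c = n) :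
    att h l y = .pt h p n := by
  have H : ∃ (s : S.P) (c : ℤ), S.I s l ∧ y = S.x l s ^ c := ⟨p, n, hI, he⟩
  unfold att
  rw [if_neg hy, dif_pos H]
  have h0 := H.choose_spec.choose_spec
  obtain ⟨h1, h2⟩ := hu _ _ h0.1 h0.2
  exact congrArg₂ (fun s c => NF.pt h s c) h1 h2

theorem att_eq_ln {h : NF S} {l : S.Ln} {y : S.L l} (hy : y ≠ 1)
    (H : ¬ ∃ (s : S.P) (c : ℤ), S.I s l ∧ y = S.x l s ^ c) :
    att h l y = .ln h l y := by
  unfold att
  rw [if_neg hy, dif_neg H]

theorem attM_eq_f {f : ℤ → NF S} {q : S.P} {l : S.Ln} {y : S.L l} (ht : rep S l q y = 1) :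
    attM f q l y = f (cf S l q y) := by
  unfold attM
  simp only
  rw [if_pos ht]

theorem attM_eq_pt {f : ℤ → NF S} {q : S.P} {l : S.Ln} {y : S.L l} {s0 : S.P} {b0 c0 : ℤ}
    (ht : rep S l q y ≠ 1) (hI : S.I s0 l) (hq : s0 ≠ q)
    (he : rep S l q y = S.x l q ^ b0 * S.x l s0 ^ c0)
    (hu : ∀ (s : S.P) (b c : ℤ), S.I s l → s ≠ q → rep S l q y = S.x l q ^ b * S.x l s ^ c →
      s = s0 ∧ b = b0 ∧ c = c0) :
    attM f q l y = .pt (f (cf S l q y + b0)) s0 c0 := by
  have H : ∃ (s : S.P) (b c : ℤ), S.I s l ∧ s ≠ q ∧ rep S l q y = S.x l q ^ b * S.x l s ^ c :=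
    ⟨s0, b0, c0, hI, hq, he⟩
  unfold attM
  simp only
  rw [if_neg ht, dif_pos H]
  have h0 := H.choose_spec.choose_spec.choose_spec
  obtain ⟨h1, h2, h3⟩ := hu _ _ _ h0.1 h0.2.1 h0.2.2
  have h4 : (NF.pt (f (cf S l q y + H.choose_spec.choose)) H.choose
      H.choose_spec.choose_spec.choose : NF S) =
      NF.pt (f (cf S l q y + b0)) H.choose H.choose_spec.choose_spec.choose :=
    congrArg (fun b => NF.pt (f (cf S l q y + b)) H.choose H.choose_spec.choose_spec.choose) h2
  rw [h4]
  exact congrArg₂ (fun s c => NF.pt (f (cf S l q y + b0)) s c) h1 h3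

theorem attM_eq_ln {f : ℤ → NF S} {q : S.P} {l : S.Ln} {y : S.L l}
    (ht : rep S l q y ≠ 1)
    (H : ¬ ∃ (s : S.P) (b c : ℤ), S.I s l ∧ s ≠ q ∧
      rep S l q y = S.x l q ^ b * S.x l s ^ c) :
    attM f q l y = .ln (f (cf S l q y)) l (rep S l q y) := by
  unfold attM
  simp only
  rw [if_neg ht, dif_neg H]

theorem near_exists {q : S.P} {s : St S} (h : Near S q s) : ∃ m, InD S m s ∧ S.I q m := by
  cases s with
  | none => exact h.elim
  | ln m => exact ⟨m, rfl, h⟩
  | pt r =>
    obtain ⟨m, h1, h2⟩ := h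
    exact ⟨m, h1, h2⟩

theorem near_of_inD {q : S.P} {l : S.Ln} {s : St S} (h : InD S l s) (hq : S.I q l) :
    Near S q s := by
  cases s with
  | none => exact h.elim
  | ln m =>
    have h' : l = m := h
    subst h'
    exact hq
  | pt r => exact ⟨l, h, hq⟩

theorem eq_zero_of_cf {l : S.Ln} {q : S.P} (hq : S.I q l) {a : ℤ} (h : S.x l q ^ a = 1) : a = 0 :=
  S.X0 l q a hq h

/-- the case `l ∉ D(h)` -/
theorem up_one (hR : S_REP) (hN : S_UPN) (hM : S_UPM) (h : NF S) (l : S.Ln)
    (hl : ¬ InD S l (st h)) (hD : ∀ m, InD S m (st h) → act h m 1 = h) : up h l 1 = h := by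
  by_cases hq : ∃ q, S.I q l ∧ Near S q (st h)
  · obtain ⟨q, hql, hqn⟩ := hq
    obtain ⟨m, hm, hqm⟩ := near_exists hqn
    rw [hM S h l 1 q m hl hql hqn hm hqm]
    have h1 : rep S l q 1 = 1 := ((hR S l q hql 1).2.2.2.1).2 ⟨0, by rw [zpow_zero]⟩
    rw [attM_eq_f h1]
    have h2 : S.x l q ^ cf S l q 1 = 1 := by
      have := (hR S l q hql 1).1
      rw [h1, mul_one] at this
      exact this.symm
    have h3 : cf S l q 1 = 0 := S.X0 l q _ hql h2
    show act h m (S.x m q ^ cf S l q 1) = h
    rw [h3, zpow_zero]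
    exact hD m hm
  · push Not at hq
    rw [hN S h l 1 hq, att_one]

theorem t_A0 (hR : S_REP) (_hU : S_UNI) (hN : S_UPN) (hM : S_UPM) (_hAN : S_ACTN) : S_A0 := by
  intro S h
  induction h with
  | one =>
    intro l _
    show up NF.one l 1 = NF.one
    show att NF.one l 1 = NF.one
    exact att_one _ _
  | pt h' p n ih =>
    intro l hv
    obtain ⟨hv', hn, hp⟩ := hv
    -- the case of a line through `p`
    have key : ∀ l, S.I p l → act (NF.pt h' p n) l 1 = NF.pt h' p n := by
      intro l hpl
      have h1 : act (NF.pt h' p n) l 1 = up h' l (S.x l p ^ n * 1) := by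
        rw [act]
        exact if_pos hpl
      rw [h1, mul_one]
      have hlD : ¬ InD S l (st h') := fun hh => hp (near_of_inD hh hpl)
      have hy : S.x l p ^ n ≠ 1 := fun hh => hn (S.X0 l p n hpl hh)
      by_cases hq : ∃ q, S.I q l ∧ Near S q (st h')
      · obtain ⟨q, hql, hqn⟩ := hq
        obtain ⟨m, hm, hqm⟩ := near_exists hqn
        have hpq : p ≠ q := fun hh => hp (hh ▸ hqn)
        rw [hM S h' l _ q m hlD hql hqn hm hqm]
        have hr := hR S l q hql (S.x l p ^ n)
        have ht : rep S l q (S.x l p ^ n) ≠ 1 := by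
          intro hh
          obtain ⟨a, ha⟩ := hr.2.2.2.1.1 hh
          have h2 : S.x l p ^ n * S.x l q ^ (-a) = 1 := by rw [ha, zpow_neg, mul_inv_cancel]
          exact hn (S.L1 l p q n (-a) hpl hql hpq h2).1
        have he : rep S l q (S.x l p ^ n) =
            S.x l q ^ (-(cf S l q (S.x l p ^ n))) * S.x l p ^ n := by
          rw [zpow_neg]
          exact (inv_mul_eq_of_eq_mul hr.1).symm
        have hfin := attM_eq_pt (f := fun a => act h' m (S.x m q ^ a)) (q := q) (l := l)
          (y := S.x l p ^ n) ht hpl hpq he (by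
            intro s b c hs hsq hh
            have h3 : S.x l p ^ n = S.x l q ^ (cf S l q (S.x l p ^ n) + b) * S.x l s ^ c := by
              rw [zpow_add, mul_assoc, ← hh]
              exact hr.1
            have hsp : s = p := by
              by_contra hsp
              have h4 : S.x l p ^ (-n) * S.x l q ^ (cf S l q (S.x l p ^ n) + b) * S.x l s ^ c
                  = 1 := by
                rw [mul_assoc, ← h3, zpow_neg, inv_mul_cancel]
              have h5 := (S.L2 l p q s (-n) _ c hpl hql hs hpq (fun hh => hsq hh.symm)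
                (fun hh => hsp hh.symm) h4).1
              omega
            rw [hsp] at h3
            have h4 : S.x l q ^ (cf S l q (S.x l p ^ n) + b) * S.x l p ^ (c - n) = 1 := by
              rw [zpow_sub, ← mul_assoc, ← h3, mul_inv_cancel]
            have h5 := S.L1 l q p _ _ hql hpl (fun hh => hpq hh.symm) h4
            exact ⟨hsp, by omega, by omega⟩)
        rw [hfin]
        show NF.pt (act h' m (S.x m q ^ (cf S l q (S.x l p ^ n) +
          -(cf S l q (S.x l p ^ n))))) p n = NF.pt h' p n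
        rw [add_neg_cancel, zpow_zero, ih m hv']
      · push Not at hq
        rw [hN S h' l _ hq]
        refine att_eq_pt hy hpl rfl ?_
        intro s c hs hc
        have hsp : s = p := by
          by_contra hsp
          have h2 : S.x l p ^ n * S.x l s ^ (-c) = 1 := by rw [hc, zpow_neg, mul_inv_cancel]
          exact hn (S.L1 l p s n (-c) hpl hs (fun hh => hsp hh.symm) h2).1
        subst hsp
        refine ⟨rfl, ?_⟩
        have h2 : S.x l s ^ (c - n) = 1 := by rw [zpow_sub, ← hc, mul_inv_cancel]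
        have := S.X0 l s _ hs h2
        omega
    by_cases hpl : S.I p l
    · exact key l hpl
    · have h1 : act (NF.pt h' p n) l 1 = up (NF.pt h' p n) l 1 := by
        rw [act]
        exact if_neg hpl
      rw [h1]
      exact up_one hR hN hM _ l hpl fun m hm => key m hm
  | ln h' m t ih =>
    intro l hv
    obtain ⟨hv', hmD, hc1, hc2⟩ := hv
    have key : act (NF.ln h' m t) m 1 = NF.ln h' m t := by
      have h1 : act (NF.ln h' m t) m 1 = up h' m (t * 1) := by
        rw [act]
        exact dif_pos rfl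
      rw [h1, mul_one]
      by_cases hq : ∃ q, S.I q m ∧ Near S q (st h')
      · obtain ⟨q, hqm, hqn⟩ := hq
        obtain ⟨k, hk, hqk⟩ := near_exists hqn
        rw [hM S h' m _ q k hmD hqm hqn hk hqk]
        obtain ⟨hrt, hne⟩ := hc1 q hqm hqn
        have ht1 : t ≠ 1 := by
          intro hh
          exact hne q 0 0 hqm (by rw [hh]; simp)
        have hr := hR S m q hqm t
        have h2 : S.x m q ^ cf S m q t = 1 := by
          have h3 := hr.1
          rw [hrt] at h3
          exact mul_eq_right.1 h3.symm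
        have h3 : cf S m q t = 0 := S.X0 m q _ hqm h2
        have h4 := attM_eq_ln (f := fun a => act h' k (S.x k q ^ a)) (q := q) (l := m) (y := t)
          (by rw [hrt]; exact ht1) (by
            rintro ⟨s, b, c, hs, -, hh⟩
            rw [hrt] at hh
            exact hne s b c hs hh)
        rw [h4, hrt, h3]
        show NF.ln (act h' k (S.x k q ^ (0 : ℤ))) m t = NF.ln h' m t
        rw [zpow_zero, ih k hv']
      · push Not at hq
        rw [hN S h' m _ hq]
        obtain ⟨r, hr⟩ := S.Λ0 m
        refine att_eq_ln ?_ ?_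
        · intro hh
          exact hc2 hq r 0 hr (by rw [hh, zpow_zero])
        · rintro ⟨s, c, hs, hh⟩
          exact hc2 hq s c hs hh
    by_cases hml : m = l
    · subst hml
      exact key
    · have h1 : act (NF.ln h' m t) l 1 = up (NF.ln h' m t) l 1 := by
        rw [act]
        exact dif_neg hml
      rw [h1]
      refine up_one hR hN hM _ l (fun hh => hml (Eq.symm hh)) ?_
      intro k hk
      have hk' : k = m := hk
      subst hk'
      exact key

end Pool.Agent.H940R.EA.A0
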