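import Pool.Agent.H482R3.EA.Stm

set_option autoImplicit false

/-! Project EA, task EXG (helper940): exponents on `A_W`. -/

namespace Pool.Agent.H940R.EA.EXG

open Pool.Agent.H482R3.EA Pool.Agent.H482R3.EA.NF

theorem ev_toWord {S : Type} (c : S → S → ℕ) (x : FreeGroup S) [DecidableEq S] :
    ev (gen c) x.toWord = (PresentedGroup.mk (rels c) x : EA c) := by
  have h1 : (PresentedGroup.mk (rels c)) = FreeGroup.lift (gen c) := by
    ext a
    rw [FreeGroup.lift_apply_of]
    rfl
  rw [h1]
  conv_rhs => rw [← FreeGroup.mk_toWord (x := x)]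
  rw [FreeGroup.lift_mk]
  unfold ev
  congr 1
  refine List.map_congr_left ?_
  rintro ⟨a, b⟩ -
  cases b <;> rfl

theorem t_EXG (hE : S_EX) (hS : S_SURJ) (hV : S_EV) : S_EXG := by
  intro V Wt _ c w
  have key : ∀ g : EA (cW c), ev (gen (cW c)) ((Quot.exists_rep g).choose.toWord) = g := by
    intro g
    rw [ev_toWord]
    exact (Quot.exists_rep g).choose_spec
  have h1 : ∀ u : W Wt, exg c w (ev (gen (cW c)) u) = expo w u := by
    intro u
    exact (hE Wt _ (cW c) w).1 _ _ (key (ev (gen (cW c)) u))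
  refine ⟨h1, ?_, ?_⟩
  · intro g g'
    obtain ⟨u, rfl⟩ := hS Wt (cW c) g
    obtain ⟨u', rfl⟩ := hS Wt (cW c) g'
    rw [← (hV Wt (EA (cW c)) inferInstance (gen (cW c))).1, h1, h1, h1]
    exact (hE Wt _ (cW c) w).2.2.2.1 u u'
  · intro w' n
    obtain ⟨k, rfl | rfl⟩ := n.eq_nat_or_neg
    · have h2 := ((hV Wt (EA (cW c)) inferInstance (gen (cW c))).2.2 w' k).1
      rw [zpow_natCast, ← h2, h1]
      unfold expo
      rw [List.count_replicate, List.count_replicate]
      by_cases hw : w' = w
      · subst hw; simp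
      · simp [hw]
    · have h2 := ((hV Wt (EA (cW c)) inferInstance (gen (cW c))).2.2 w' k).2
      rw [zpow_neg, zpow_natCast, ← inv_pow, ← h2, h1]
      unfold expo
      rw [List.count_replicate, List.count_replicate]
      by_cases hw : w' = w
      · subst hw; simp
      · simp [hw]

end Pool.Agent.H940R.EA.EXG
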