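import Pool.Agent.H482R3.EA.Stm

set_option autoImplicit false

/-! Project EA, task NEARC (helper940). -/

namespace Pool.Agent.H940R.EA.NEARC

open Pool.Agent.H482R3.EA Pool.Agent.H482R3.EA.NF

variable {α β γ : Type} [Primcodable α] [Primcodable β] [Primcodable γ]

theorem cp_comp {p : β → Prop} (hp : ComputablePred p) {f : α → β} (hf : Computable f) :
    ComputablePred (fun x => p (f x)) := by
  obtain ⟨d, h⟩ := hp
  exact ⟨fun x => d (f x), h.comp hf⟩

theorem cp_const (q : Prop) : ComputablePred (fun _ : α => q) := by
  classical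
  exact ⟨fun _ => Classical.propDecidable q, Computable.const _⟩

theorem cp_finite [Finite β] (p : β → Prop) : ComputablePred p := by
  classical
  exact ⟨fun x => Classical.propDecidable (p x), (Primrec.dom_finite _).to_comp⟩

theorem cp_option {o : α → Option β} {P : α → Option β → Prop} (ho : Computable o)
    (h0 : ComputablePred (fun x => P x none))
    (h1 : ComputablePred (fun x : α × β => P x.1 (some x.2))) :
    ComputablePred (fun x => P x (o x)) := by
  obtain ⟨f0, hf0, e0⟩ := ComputablePred.computable_iff.1 h0
  obtain ⟨f1, hf1, e1⟩ := ComputablePred.computable_iff.1 h1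
  refine ComputablePred.computable_iff.2
    ⟨fun x => Option.casesOn (o x) (f0 x) (fun y => f1 (x, y)), ?_, ?_⟩
  · exact Computable.option_casesOn ho hf0 hf1
  · funext x
    show P x (o x) = ((Option.casesOn (o x) (f0 x) (fun y => f1 (x, y)) : Bool) = true)
    cases hx : o x with
    | none => exact congrFun e0 x
    | some y => exact congrFun e1 (x, y)

theorem cp_sum {o : α → β ⊕ γ} {P : α → β ⊕ γ → Prop} (ho : Computable o)
    (h0 : ComputablePred (fun x : α × β => P x.1 (Sum.inl x.2)))
    (h1 : ComputablePred (fun x : α × γ => P x.1 (Sum.inr x.2))) :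
    ComputablePred (fun x => P x (o x)) := by
  obtain ⟨f0, hf0, e0⟩ := ComputablePred.computable_iff.1 h0
  obtain ⟨f1, hf1, e1⟩ := ComputablePred.computable_iff.1 h1
  refine ComputablePred.computable_iff.2
    ⟨fun x => Sum.casesOn (o x) (fun y => f0 (x, y)) (fun y => f1 (x, y)), ?_, ?_⟩
  · exact Computable.sumCasesOn ho hf0 hf1
  · funext x
    show P x (o x) = ((Sum.casesOn (o x) (fun y => f0 (x, y)) (fun y => f1 (x, y)) : Bool) = true)
    cases hx : o x with
    | inl y => exact congrFun e0 (x, y)
    | inr y => exact congrFun e1 (x, y)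

theorem t_NEARC (hB : S_BAS) (hP : S_CP) : S_NEARC := by
  intro a b c hc
  obtain ⟨hinv, hfil, -⟩ := hB b
  -- the word `inv g' ++ g`
  have happ : ∀ {δ : Type} [Primcodable δ] {f g : δ → W (Fin b)}, Computable f → Computable g →
      Computable (fun x => inv (f x) ++ g x) := by
    intro δ _ f g hf hg
    exact Computable.list_append.comp (hinv.comp hf) hg
  have hinz : ∀ {δ : Type} [Primcodable δ] {f : δ → Fin b} {u : δ → W (Fin b)}, Computable f →
      Computable u → ComputablePred (fun x => inz c (f x) (u x)) := by
    intro δ _ f u hf hu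
    exact cp_comp (f := fun x => u x ++ inv (fil (f x) (u x))) hc
      (Computable.list_append.comp hu (hinv.comp (hfil.comp (hf.pair hu))))
  refine cp_option (α := (W (Fin b) × Fin a) × Option (Syl (Fin a) (Fin b)))
    (o := fun p => p.2) (P := fun p s => NearW c p.1.1 p.1.2 s) Computable.snd (cp_const False) ?_
  refine cp_sum (α := ((W (Fin b) × Fin a) × Option (Syl (Fin a) (Fin b))) × Syl (Fin a) (Fin b))
    (o := fun p => p.2) (P := fun p s => NearW c p.1.1.1 p.1.1.2 (some s)) Computable.snd ?_ ?_
  · -- point syllables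
    let E : Type := ((W (Fin b) × Fin a) × Option (Syl (Fin a) (Fin b))) × Syl (Fin a) (Fin b)
    let D : Type := E × (W (Fin b) × Fin a × Bool × ℕ)
    have hg : Computable (fun x : D => x.1.1.1.1) :=
      Computable.fst.comp (Computable.fst.comp (Computable.fst.comp Computable.fst))
    have hv : Computable (fun x : D => x.1.1.1.2) :=
      Computable.snd.comp (Computable.fst.comp (Computable.fst.comp Computable.fst))
    have hg' : Computable (fun x : D => x.2.1) := Computable.fst.comp Computable.snd
    have hv' : Computable (fun x : D => x.2.2.1) :=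
      Computable.fst.comp (Computable.snd.comp Computable.snd)
    show ComputablePred (fun x : D => Triv (cW c) (inv x.2.1 ++ x.1.1.1.1) ∨
      (x.1.1.1.2 = x.2.2.1 ∧ ∃ w, c (.inl x.1.1.1.2) (.inr w) ≠ 0 ∧
        inz c w (inv x.2.1 ++ x.1.1.1.1)))
    have h1 : ComputablePred (fun x : D => Triv (cW c) (inv x.2.1 ++ x.1.1.1.1)) :=
      cp_comp hc (happ hg' hg)
    have h2 : ComputablePred (fun x : D => x.1.1.1.2 = x.2.2.1) :=
      cp_comp (p := fun y : Fin a × Fin a => y.1 = y.2) (cp_finite _) (hv.pair hv')
    have h3 : ∀ w : Fin b, ComputablePred (fun x : D => c (.inl x.1.1.1.2) (.inr w) ≠ 0 ∧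
        inz c w (inv x.2.1 ++ x.1.1.1.1)) := by
      intro w
      refine (hP D _ 0).1 _ _ ?_ ?_
      · exact cp_comp (p := fun y : Fin a => c (.inl y) (.inr w) ≠ 0) (cp_finite _) hv
      · exact hinz (Computable.const w) (happ hg' hg)
    exact (hP D _ 0).2.1 _ _ h1 ((hP D _ 0).1 _ _ h2 ((hP D _ b).2.2.2 _ h3))
  · let E : Type := ((W (Fin b) × Fin a) × Option (Syl (Fin a) (Fin b))) × Syl (Fin a) (Fin b)
    let M : Type := (W (Fin b) × W (Fin a)) ⊕ (W (Fin b) × Fin a × Fin b × W ℕ)
    refine cp_sum (α := E × M) (o := fun p => p.2)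
      (P := fun p s => NearW c p.1.1.1.1 p.1.1.1.2 (some (Sum.inr s))) Computable.snd ?_ ?_
    · -- `B_g` syllables
      let D : Type := (E × M) × (W (Fin b) × W (Fin a))
      have hg : Computable (fun x : D => x.1.1.1.1.1) :=
        Computable.fst.comp (Computable.fst.comp (Computable.fst.comp
          (Computable.fst.comp Computable.fst)))
      have hg' : Computable (fun x : D => x.2.1) := Computable.fst.comp Computable.snd
      exact cp_comp (f := fun x : D => inv x.2.1 ++ x.1.1.1.1.1) hc (happ hg' hg)
    · -- line syllables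
      let D : Type := (E × M) × (W (Fin b) × Fin a × Fin b × W ℕ)
      have hg : Computable (fun x : D => x.1.1.1.1.1) :=
        Computable.fst.comp (Computable.fst.comp (Computable.fst.comp
          (Computable.fst.comp Computable.fst)))
      have hv : Computable (fun x : D => x.1.1.1.1.2) :=
        Computable.snd.comp (Computable.fst.comp (Computable.fst.comp
          (Computable.fst.comp Computable.fst)))
      have hg' : Computable (fun x : D => x.2.1) := Computable.fst.comp Computable.snd
      have hv' : Computable (fun x : D => x.2.2.1) :=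
        Computable.fst.comp (Computable.snd.comp Computable.snd)
      have hw' : Computable (fun x : D => x.2.2.2.1) :=
        Computable.fst.comp (Computable.snd.comp (Computable.snd.comp Computable.snd))
      show ComputablePred (fun x : D => x.1.1.1.1.2 = x.2.2.1 ∧
        inz c x.2.2.2.1 (inv x.2.1 ++ x.1.1.1.1.1))
      refine (hP D _ 0).1 _ _ ?_ ?_
      · exact cp_comp (p := fun y : Fin a × Fin a => y.1 = y.2) (cp_finite _) (hv.pair hv')
      · exact hinz hw' (happ hg' hg)

end Pool.Agent.H940R.EA.NEARC
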